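import Pool.Agent.H63.Four.Defs

set_option autoImplicit false

/-!
# Job FL3: the determinant side of the four-leg formula
-/

namespace Pool.Agent.H63.Four

open Pool.Agent.H51.TA Finset

theorem FF_zero {p : ℕ} (u : Fin p → ℂ) (Z : Fin 0 → ℂ) : FF u Z = 1 := by
  simp [FF]

lemma V1_perm {p : ℕ} (u : Fin p → ℂ) (σ : Equiv.Perm (Fin p)) (a : ℂ) :
    V1 (u ∘ σ) a = V1 u a := by
  unfold V1
  exact Equiv.prod_comp σ (fun k => D a (u k))

lemma V2_perm {p : ℕ} (u : Fin p → ℂ) (σ : Equiv.Perm (Fin p)) (a : ℂ) :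
    V2 (u ∘ σ) a = V2 u a := by
  unfold V2
  exact Equiv.prod_comp σ (fun k => D (u k) a)

theorem FF_leg_perm {p m : ℕ} (u : Fin p → ℂ) (Z : Fin m → ℂ) (σ : Equiv.Perm (Fin p)) :
    FF (u ∘ σ) Z = FF u Z := by
  unfold FF
  simp only [V1_perm, V2_perm]

theorem FF_perm {p m : ℕ} (u : Fin p → ℂ) (Z : Fin m → ℂ) (σ : Equiv.Perm (Fin m)) :
    FF u (Z ∘ σ) = FF u Z := by
  unfold FF
  have h1 : (Matrix.of fun i j => V1 u ((Z ∘ σ) i) / D ((Z ∘ σ) j) ((Z ∘ σ) i) +
      V2 u ((Z ∘ σ) i) / D ((Z ∘ σ) i) ((Z ∘ σ) j)) =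
      (Matrix.of fun i j => V1 u (Z i) / D (Z j) (Z i) +
        V2 u (Z i) / D (Z i) (Z j)).submatrix σ σ := by
    ext i j
    rfl
  have h2 : ∏ i, D ((Z ∘ σ) i) ((Z ∘ σ) i) = ∏ i, D (Z i) (Z i) :=
    Equiv.prod_comp σ (fun i => D (Z i) (Z i))
  have h3 : (∏ i, ∏ j, if i = j then 1 else
      D ((Z ∘ σ) i) ((Z ∘ σ) j) * D ((Z ∘ σ) j) ((Z ∘ σ) i) / ((Z ∘ σ) i - (Z ∘ σ) j)) =
      ∏ i, ∏ j, if i = j then 1 else D (Z i) (Z j) * D (Z j) (Z i) / (Z i - Z j) := by
    rw [← Equiv.prod_comp σ (fun i => ∏ j, if i = j then 1 else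
      D (Z i) (Z j) * D (Z j) (Z i) / (Z i - Z j))]
    refine Finset.prod_congr rfl fun i _ => ?_
    rw [← Equiv.prod_comp σ (fun j => if σ i = j then 1 else
      D (Z (σ i)) (Z j) * D (Z j) (Z (σ i)) / (Z (σ i) - Z j))]
    refine Finset.prod_congr rfl fun j _ => ?_
    simp only [Function.comp_apply, EmbeddingLike.apply_eq_iff_eq]
  rw [h1, h2, h3, Matrix.det_submatrix_equiv_self]

lemma V1_cons {p : ℕ} (t : ℂ) (u : Fin p → ℂ) (a : ℂ) :
    V1 (Fin.cons t u : Fin (p + 1) → ℂ) a = D a t * V1 u a := by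
  unfold V1
  rw [Fin.prod_univ_succ]
  simp

lemma V2_cons {p : ℕ} (t : ℂ) (u : Fin p → ℂ) (a : ℂ) :
    V2 (Fin.cons t u : Fin (p + 1) → ℂ) a = D t a * V2 u a := by
  unfold V2
  rw [Fin.prod_univ_succ]
  simp

theorem FF_poly {p m : ℕ} (u : Fin p → ℂ) (Z : Fin m → ℂ) :
    ∃ P : Polynomial ℂ, P.natDegree ≤ m ∧
      ∀ t, FF (Fin.cons t u : Fin (p + 1) → ℂ) Z = P.eval t := by
  classical
  set Q : Matrix (Fin m) (Fin m) (Polynomial ℂ) := Matrix.of fun i j =>
    Polynomial.C (V1 u (Z i) / D (Z j) (Z i)) *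
        (Polynomial.C (Z i - 1) * Polynomial.X + Polynomial.C 1) +
      Polynomial.C (V2 u (Z i) / D (Z i) (Z j)) *
        (Polynomial.C (Z i) * Polynomial.X + Polynomial.C (1 - Z i)) with hQ
  set c : ℂ := (∏ i, D (Z i) (Z i)) *
    ∏ i, ∏ j, if i = j then 1 else D (Z i) (Z j) * D (Z j) (Z i) / (Z i - Z j) with hc
  refine ⟨Polynomial.C c * Q.det, ?_, fun t => ?_⟩
  · refine (Polynomial.natDegree_C_mul_le _ _).trans ?_
    rw [Matrix.det_apply]
    refine Polynomial.natDegree_sum_le_of_forall_le _ _ fun σ _ => ?_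
    refine (Polynomial.natDegree_smul_le _ _).trans ?_
    refine (Polynomial.natDegree_prod_le _ _).trans ?_
    refine (Finset.sum_le_card_nsmul _ _ 1 fun i _ => ?_).trans (by simp)
    refine Polynomial.natDegree_add_le_of_degree_le ?_ ?_
    · exact (Polynomial.natDegree_C_mul_le _ _).trans Polynomial.natDegree_linear_le
    · exact (Polynomial.natDegree_C_mul_le _ _).trans Polynomial.natDegree_linear_le
  · have h1 : (Matrix.of fun i j => V1 (Fin.cons t u : Fin (p + 1) → ℂ) (Z i) / D (Z j) (Z i) +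
        V2 (Fin.cons t u : Fin (p + 1) → ℂ) (Z i) / D (Z i) (Z j)) =
        (Polynomial.evalRingHom t).mapMatrix Q := by
      ext i j
      simp only [hQ, Matrix.of_apply, RingHom.mapMatrix_apply, Matrix.map_apply, V1_cons, V2_cons,
        Polynomial.coe_evalRingHom, Polynomial.eval_add, Polynomial.eval_mul, Polynomial.eval_C,
        Polynomial.eval_X]
      unfold D
      ring
    unfold FF
    rw [h1, ← RingHom.map_det, Polynomial.eval_mul, Polynomial.eval_C, hc,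
      Polynomial.coe_evalRingHom]
    ring

/-- the prefactor of `FF` when a strand is added -/
lemma pref_cons {m : ℕ} (z : ℂ) (Z : Fin m → ℂ) :
    (∏ i, ∏ j, if i = j then 1 else
      D ((Fin.cons z Z : Fin (m + 1) → ℂ) i) ((Fin.cons z Z : Fin (m + 1) → ℂ) j) *
        D ((Fin.cons z Z : Fin (m + 1) → ℂ) j) ((Fin.cons z Z : Fin (m + 1) → ℂ) i) /
          ((Fin.cons z Z : Fin (m + 1) → ℂ) i - (Fin.cons z Z : Fin (m + 1) → ℂ) j)) =
    (∏ j, (D z (Z j) * D (Z j) z / (z - Z j)) * (D (Z j) z * D z (Z j) / (Z j - z))) *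
      ∏ i, ∏ j, if i = j then 1 else D (Z i) (Z j) * D (Z j) (Z i) / (Z i - Z j) := by
  rw [Fin.prod_univ_succ, Fin.prod_univ_succ]
  simp only [Fin.cons_zero, Fin.cons_succ, if_true, one_mul]
  have h1 : ∀ i : Fin m, (0 : Fin (m + 1)) ≠ i.succ := fun i => (Fin.succ_ne_zero i).symm
  simp only [h1, if_false]
  have h2 : ∀ i : Fin m, (∏ j : Fin (m + 1), if i.succ = j then (1 : ℂ) else
      D (Z i) ((Fin.cons z Z : Fin (m + 1) → ℂ) j) *
        D ((Fin.cons z Z : Fin (m + 1) → ℂ) j) (Z i) /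
          (Z i - (Fin.cons z Z : Fin (m + 1) → ℂ) j)) =
      (D (Z i) z * D z (Z i) / (Z i - z)) *
        ∏ j, if i = j then 1 else D (Z i) (Z j) * D (Z j) (Z i) / (Z i - Z j) := by
    intro i
    rw [Fin.prod_univ_succ]
    simp only [Fin.succ_ne_zero, if_false, Fin.cons_zero, Fin.cons_succ, Fin.succ_inj]
  simp only [h2, Finset.prod_mul_distrib]
  ring

theorem FF_rec1 {p m : ℕ} (t z : ℂ) (u : Fin p → ℂ) (Z : Fin m → ℂ) (ht : D t z = 0)
    (hz : D z z ≠ 0) (hz0 : z ≠ 0) (hne : ∀ j, Z j ≠ z) (hD1 : ∀ j, D (Z j) z ≠ 0)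
    (hD2 : ∀ j, D z (Z j) ≠ 0) (hD : ∀ i j, D (Z i) (Z j) ≠ 0) (hinj : Function.Injective Z) :
    FF (Fin.cons t u : Fin (p + 1) → ℂ) (Fin.cons z Z : Fin (m + 1) → ℂ) =
      D z t * (∏ k, D z (u k)) * (∏ j, D z (Z j) * D (Z j) t) *
        FF (Fin.cons z u : Fin (p + 1) → ℂ) Z := by
  classical
  have ht' : t = (z - 1) / z := by
    unfold D at ht
    field_simp
    linear_combination ht
  have e1 : ∀ a, D a t = D z a / z := by
    intro a; rw [ht']; unfold D; field_simp; ring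
  have e2 : ∀ a, D t a = (z - a) / z := by
    intro a; rw [ht']; unfold D; field_simp; ring
  -- the matrix
  set A : Matrix (Fin (m + 1)) (Fin (m + 1)) ℂ := Matrix.of fun i j =>
    V1 (Fin.cons t u : Fin (p + 1) → ℂ) ((Fin.cons z Z : Fin (m + 1) → ℂ) i) /
        D ((Fin.cons z Z : Fin (m + 1) → ℂ) j) ((Fin.cons z Z : Fin (m + 1) → ℂ) i) +
      V2 (Fin.cons t u : Fin (p + 1) → ℂ) ((Fin.cons z Z : Fin (m + 1) → ℂ) i) /
        D ((Fin.cons z Z : Fin (m + 1) → ℂ) i) ((Fin.cons z Z : Fin (m + 1) → ℂ) j) with hA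
  set E : Matrix (Fin m) (Fin m) ℂ := Matrix.of fun i j =>
    V1 (Fin.cons z u : Fin (p + 1) → ℂ) (Z i) / D (Z j) (Z i) +
      V2 (Fin.cons z u : Fin (p + 1) → ℂ) (Z i) / D (Z i) (Z j) with hE
  set c : Fin (m + 1) → ℂ := Fin.cons 0 (fun k => D z z / D (Z k) z) with hc
  set B : Matrix (Fin (m + 1)) (Fin (m + 1)) ℂ := Matrix.of fun i j => A i j - c j * A i 0 with hB
  have hAB : A.det = B.det := by
    rw [← Matrix.det_transpose A, ← Matrix.det_transpose B]
    apply Matrix.det_eq_of_forall_row_eq_smul_add_const c 0 rfl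
    intro i j
    simp only [hB, Matrix.transpose_apply, Matrix.of_apply, hc, Fin.cons_zero, zero_mul, sub_zero]
    ring
  have hB0 : ∀ k : Fin m, B 0 k.succ = 0 := by
    intro k
    have h1 := hD1 k
    simp only [hB, hA, hc, Matrix.of_apply, Fin.cons_zero, Fin.cons_succ, V1_cons, V2_cons, e1, e2,
      sub_self, zero_div, zero_mul, add_zero]
    field_simp
    ring
  have hB00 : B 0 0 = V1 u z / z := by
    simp only [hB, hA, hc, Matrix.of_apply, Fin.cons_zero, V1_cons, V2_cons, e1, e2,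
      sub_self, zero_div, zero_mul, add_zero, sub_zero]
    field_simp
  have hBs : B.submatrix Fin.succ Fin.succ = Matrix.of fun j k =>
      ((z - Z j) / (z * D (Z j) z)) * (Matrix.of fun j k => ((Z k - z) / D (Z k) z) * E j k) j k := by
    ext j k
    have h1 := hD1 k
    have h2 := hD1 j
    have h3 := hD2 j
    have h4 := hD j k
    have h5 := hD k j
    simp only [hB, hA, hE, hc, Matrix.submatrix_apply, Matrix.of_apply, Fin.cons_zero,
      Fin.cons_succ, V1_cons, V2_cons, e1, e2]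
    have k1 : D z (Z j) * D (Z k) z - D z z * D (Z k) (Z j) = (Z k - z) * (z - Z j) := by
      unfold D; ring
    have k2 : D (Z j) z * D (Z k) z - D z z * D (Z j) (Z k) = D z (Z j) * (Z k - z) := by
      unfold D; ring
    have k3 : D z (Z j) / z * V1 u (Z j) / D (Z k) (Z j) -
        D z z / D (Z k) z * (D z (Z j) / z * V1 u (Z j) / D z (Z j)) =
        (z - Z j) / (z * D (Z j) z) * ((Z k - z) / D (Z k) z *
          (D (Z j) z * V1 u (Z j) / D (Z k) (Z j))) := by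
      field_simp
      linear_combination (V1 u (Z j)) * k1
    have k4 : (z - Z j) / z * V2 u (Z j) / D (Z j) (Z k) -
        D z z / D (Z k) z * ((z - Z j) / z * V2 u (Z j) / D (Z j) z) =
        (z - Z j) / (z * D (Z j) z) * ((Z k - z) / D (Z k) z *
          (D z (Z j) * V2 u (Z j) / D (Z j) (Z k))) := by
      field_simp
      linear_combination (V2 u (Z j)) * (z - Z j) * k2
    linear_combination k3 + k4
  have hdet : A.det = V1 u z / z * ((∏ j, (z - Z j) / (z * D (Z j) z)) *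
      ((∏ k, (Z k - z) / D (Z k) z) * E.det)) := by
    rw [hAB, Matrix.det_succ_row_zero, Fin.sum_univ_succ]
    have h0 : ∑ i : Fin m, (-1 : ℂ) ^ (i.succ : ℕ) * B 0 i.succ *
        (B.submatrix Fin.succ (Fin.succAbove i.succ)).det = 0 := by
      refine Finset.sum_eq_zero fun i _ => ?_
      rw [hB0, mul_zero, zero_mul]
    rw [h0, add_zero, hB00, Fin.val_zero, pow_zero, one_mul]
    have h1 : (B.submatrix Fin.succ (Fin.succAbove (0 : Fin (m + 1)))) =
        B.submatrix Fin.succ Fin.succ := by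
      ext i j
      simp
    rw [h1, hBs, Matrix.det_mul_column, Matrix.det_mul_row]
  have hL : FF (Fin.cons t u : Fin (p + 1) → ℂ) (Fin.cons z Z : Fin (m + 1) → ℂ) =
      A.det * (D z z * ∏ i, D (Z i) (Z i)) *
      ((∏ j, (D z (Z j) * D (Z j) z / (z - Z j)) * (D (Z j) z * D z (Z j) / (Z j - z))) *
      ∏ i, ∏ j, if i = j then 1 else D (Z i) (Z j) * D (Z j) (Z i) / (Z i - Z j)) := by
    rw [← pref_cons]
    unfold FF
    rw [← hA, Fin.prod_univ_succ (fun i => D ((Fin.cons z Z : Fin (m + 1) → ℂ) i)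
      ((Fin.cons z Z : Fin (m + 1) → ℂ) i))]
    simp only [Fin.cons_zero, Fin.cons_succ]
  have hR : FF (Fin.cons z u : Fin (p + 1) → ℂ) Z = E.det * (∏ i, D (Z i) (Z i)) *
      ∏ i, ∏ j, if i = j then 1 else D (Z i) (Z j) * D (Z j) (Z i) / (Z i - Z j) := rfl
  rw [hL, hR, hdet, e1 z]
  have hprod : (∏ j, (z - Z j) / (z * D (Z j) z)) * (∏ k, (Z k - z) / D (Z k) z) *
      (∏ j, (D z (Z j) * D (Z j) z / (z - Z j)) * (D (Z j) z * D z (Z j) / (Z j - z))) =
      ∏ j, D z (Z j) * D (Z j) t := by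
    rw [← Finset.prod_mul_distrib, ← Finset.prod_mul_distrib]
    refine Finset.prod_congr rfl fun j _ => ?_
    have h1 := hD1 j
    have h2 : z - Z j ≠ 0 := sub_ne_zero.mpr (hne j).symm
    have h3 : Z j - z ≠ 0 := sub_ne_zero.mpr (hne j)
    rw [e1]
    field_simp
  rw [← hprod]
  unfold V1
  ring

/-- the symmetry `a ↦ 1 - a` -/
lemma D_refl (a b : ℂ) : D (1 - a) (1 - b) = D b a := by
  unfold D; ring

lemma FF_refl {p m : ℕ} (u : Fin p → ℂ) (Z : Fin m → ℂ) :
    FF (fun k => 1 - u k) (fun i => 1 - Z i) = FF u Z := by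
  unfold FF
  have h1 : ∀ a, V1 (fun k => 1 - u k) (1 - a) = V2 u a := by
    intro a; unfold V1 V2
    simp only [D_refl]
  have h2 : ∀ a, V2 (fun k => 1 - u k) (1 - a) = V1 u a := by
    intro a; unfold V1 V2
    simp only [D_refl]
  simp only [h1, h2, D_refl]
  have h3 : (Matrix.of fun i j => V2 u (Z i) / D (Z i) (Z j) + V1 u (Z i) / D (Z j) (Z i)) =
      Matrix.of fun i j => V1 u (Z i) / D (Z j) (Z i) + V2 u (Z i) / D (Z i) (Z j) := by
    ext i j
    simp only [Matrix.of_apply]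
    ring
  have h4 : (∏ i, ∏ j, if i = j then 1 else
      D (Z j) (Z i) * D (Z i) (Z j) / (1 - Z i - (1 - Z j))) =
      ∏ i, ∏ j, if i = j then 1 else D (Z i) (Z j) * D (Z j) (Z i) / (Z i - Z j) := by
    rw [Finset.prod_comm]
    refine Finset.prod_congr rfl fun i _ => Finset.prod_congr rfl fun j _ => ?_
    by_cases h : i = j
    · rw [if_pos h, if_pos h.symm]
    · rw [if_neg h, if_neg (Ne.symm h)]
      have : (1 : ℂ) - Z j - (1 - Z i) = Z i - Z j := by ring
      rw [this]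
  rw [h3, h4]

theorem FF_rec2 {p m : ℕ} (t z : ℂ) (u : Fin p → ℂ) (Z : Fin m → ℂ) (ht : D z t = 0)
    (hz : D z z ≠ 0) (hz1 : z ≠ 1) (hne : ∀ j, Z j ≠ z) (hD1 : ∀ j, D (Z j) z ≠ 0)
    (hD2 : ∀ j, D z (Z j) ≠ 0) (hD : ∀ i j, D (Z i) (Z j) ≠ 0) (hinj : Function.Injective Z) :
    FF (Fin.cons t u : Fin (p + 1) → ℂ) (Fin.cons z Z : Fin (m + 1) → ℂ) =
      D t z * (∏ k, D (u k) z) * (∏ j, D t (Z j) * D (Z j) z) *
        FF (Fin.cons z u : Fin (p + 1) → ℂ) Z := by
  have hc : ∀ {q : ℕ} (a : ℂ) (v : Fin q → ℂ),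
      (fun k => 1 - (Fin.cons a v : Fin (q + 1) → ℂ) k) =
        (Fin.cons (1 - a) (fun k => 1 - v k) : Fin (q + 1) → ℂ) := by
    intro q a v
    funext k
    refine Fin.cases ?_ (fun k => ?_) k
    · simp
    · simp
  have h1 := FF_rec1 (1 - t) (1 - z) (fun k => 1 - u k) (fun i => 1 - Z i) (by rw [D_refl, ht])
    (by rw [D_refl]; exact hz) (sub_ne_zero.mpr hz1.symm)
    (fun j h => hne j (by linear_combination -h)) (fun j => by rw [D_refl]; exact hD2 j)
    (fun j => by rw [D_refl]; exact hD1 j) (fun i j => by rw [D_refl]; exact hD j i)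
    (fun i j h => hinj (by
      simp only at h
      linear_combination -h))
  rw [← hc, ← hc, ← hc, FF_refl, FF_refl] at h1
  rw [h1]
  simp only [D_refl]
  rw [Finset.prod_congr rfl fun j _ => mul_comm (D (Z j) z) (D t (Z j))]

end Pool.Agent.H63.Four
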